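import Pool.Agent.helper1.SOL.SpecN

/-!
# Project sol (MP_cad530_co), row TRS
-/

set_option autoImplicit false

namespace Pool.Agent.SOL

open Pool.Agent.helper54.SOG Finset

theorem TRS_sign (hCNT : CNT_stmt) (n t s : ℕ) (M : Type) (g : Vec n → M)
    (hf : ∀ x ∈ TD n t s, ∀ i, g (flp i x) = g x) (x' : Vec n) : ∀ m : ℕ, ∀ x ∈ TD n t s,
      (∀ j, |x j| = |x' j|) → (univ.filter fun j => x j ≠ x' j).card = m → g x = g x' := by
  intro m
  induction m using Nat.strong_induction_on with
  | _ m ih =>
    intro x hx habs hm
    by_cases h0 : ∀ j, x j = x' j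
    · rw [funext h0]
    · push Not at h0
      obtain ⟨j, hj⟩ := h0
      have hneg : x j = -x' j := by
        rcases abs_eq_abs.mp (habs j) with h | h
        · exact absurd h hj
        · exact h
      have c4 := hCNT.2.2.2.1
      have hy : flp j x ∈ TD n t s := c4 n t s x j hx
      have hyj : flp j x j = x' j := by
        unfold flp
        rw [if_pos rfl, hneg, neg_neg]
      have hyk : ∀ k, k ≠ j → flp j x k = x k := by
        intro k hk
        unfold flp
        rw [if_neg hk]
      have hyabs : ∀ k, |flp j x k| = |x' k| := by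
        intro k
        by_cases hk : k = j
        · rw [hk, hyj]
        · rw [hyk k hk, habs k]
      have hlt : (univ.filter fun k => flp j x k ≠ x' k).card < m := by
        rw [← hm]
        apply Finset.card_lt_card
        rw [Finset.ssubset_iff_of_subset]
        · exact ⟨j, by simp [hj], by simp [hyj]⟩
        · intro k hk
          rw [Finset.mem_filter] at hk ⊢
          refine ⟨Finset.mem_univ _, ?_⟩
          by_cases hkj : k = j
          · rw [hkj] at hk
            exact absurd hyj hk.2
          · rw [hyk k hkj] at hk
            exact hk.2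
      rw [← hf x hx j]
      exact ih _ hlt (flp j x) hy hyabs rfl

theorem TRS_cnt (hCNT : CNT_stmt) (n t s : ℕ) (x x' : Vec n) (hx : x ∈ TD n t s)
    (hx' : x' ∈ TD n t s) (a : Fin n) : cnt x (|x' a|) = cnt x' (|x' a|) := by
  have c1 := hCNT.1 n x hx.1
  have c1' := hCNT.1 n x' hx'.1
  have h1 : |x' a| = 0 ∨ |x' a| = 1 ∨ |x' a| = 2 := by
    have h2 := hx'.1 a
    have h3 := abs_nonneg (x' a)
    omega
  rcases h1 with h | h | h
  · rw [h]
    have := hx.2.1
    have := hx.2.2
    have := hx'.2.1
    have := hx'.2.2
    omega
  · rw [h, hx.2.2, hx'.2.2]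
  · rw [h, hx.2.1, hx'.2.1]

theorem TRS_first (hCNT : CNT_stmt) (n t s : ℕ) (M : Type) (g : Vec n → M)
    (hf : ∀ x ∈ TD n t s, ∀ i, g (flp i x) = g x)
    (hs : ∀ x ∈ TD n t s, ∀ a b, g (swp a b x) = g x) :
    ∀ x ∈ TD n t s, ∀ x' ∈ TD n t s, g x = g x' := by
  have key : ∀ m : ℕ, ∀ x ∈ TD n t s, ∀ x' ∈ TD n t s,
      (univ.filter fun j => |x j| ≠ |x' j|).card = m → g x = g x' := by
    intro m
    induction m using Nat.strong_induction_on with
    | _ m ih =>
      intro x hx x' hx' hm
      by_cases h0 : ∀ j, |x j| = |x' j|
      · exact TRS_sign hCNT n t s M g hf x' _ x hx h0 rfl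
      · push Not at h0
        obtain ⟨a, ha⟩ := h0
        have hcnt := TRS_cnt hCNT n t s x x' hx hx' a
        have hb : ∃ b, |x b| = |x' a| ∧ |x' b| ≠ |x' a| := by
          by_contra hcon
          push Not at hcon
          have hlt : cnt x (|x' a|) < cnt x' (|x' a|) := by
            unfold cnt
            apply Finset.card_lt_card
            rw [Finset.ssubset_iff_of_subset]
            · exact ⟨a, by simp, by simp [ha]⟩
            · intro k hk
              rw [Finset.mem_filter] at hk ⊢
              exact ⟨Finset.mem_univ _, hcon k hk.2⟩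
          omega
        obtain ⟨b, hb1, hb2⟩ := hb
        have hab : a ≠ b := by
          rintro rfl
          exact hb2 rfl
        have c5 := hCNT.2.2.2.2.1
        have hy : swp a b x ∈ TD n t s := c5 n t s x a b hx
        have hya : swp a b x a = x b := by
          unfold swp
          rw [Equiv.swap_apply_left]
        have hyk : ∀ k, k ≠ a → k ≠ b → swp a b x k = x k := by
          intro k hk hk'
          unfold swp
          rw [Equiv.swap_apply_of_ne_of_ne hk hk']
        have hlt : (univ.filter fun k => |swp a b x k| ≠ |x' k|).card < m := by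
          rw [← hm]
          apply Finset.card_lt_card
          rw [Finset.ssubset_iff_of_subset]
          · exact ⟨a, by simp [ha], by simp [hya, hb1]⟩
          · intro k hk
            rw [Finset.mem_filter] at hk ⊢
            refine ⟨Finset.mem_univ _, ?_⟩
            by_cases hka : k = a
            · rw [hka]; exact ha
            · by_cases hkb : k = b
              · rw [hkb, hb1]
                exact fun h => hb2 h.symm
              · rw [hyk k hka hkb] at hk
                exact hk.2
        rw [← hs x hx a b]
        exact ih _ hlt (swp a b x) hy x' hx' rfl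
  intro x hx x' hx'
  exact key _ x hx x' hx' rfl

theorem TRS_val (n : ℕ) (x : Vec n) (hx : x ∈ VA n 1) :
    (univ.filter fun i => x i = 1).card = 1 ∧ (univ.filter fun i => x i = -1).card = 1 ∧
      (univ.filter fun i => x i = 0).card + 2 = n := by
  obtain ⟨h1, h2, h3⟩ := hx
  have hv : ∀ i, x i = 1 ∨ x i = -1 ∨ x i = 0 := by
    intro i
    have h4 := abs_le.mp (h1 i)
    omega
  have e1 : ∑ i, x i = ((univ.filter fun i => x i = 1).card : ℤ)
      - ((univ.filter fun i => x i = -1).card : ℤ) := by
    rw [Finset.natCast_card_filter, Finset.natCast_card_filter, ← Finset.sum_sub_distrib]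
    refine Finset.sum_congr rfl fun i _ => ?_
    rcases hv i with h | h | h <;> rw [h] <;> simp
  have e2 : dp x x = ((univ.filter fun i => x i = 1).card : ℤ)
      + ((univ.filter fun i => x i = -1).card : ℤ) := by
    unfold dp
    rw [Finset.natCast_card_filter, Finset.natCast_card_filter, ← Finset.sum_add_distrib]
    refine Finset.sum_congr rfl fun i _ => ?_
    rcases hv i with h | h | h <;> rw [h] <;> simp
  have e3 : (n : ℤ) = ((univ.filter fun i => x i = 1).card : ℤ)
      + ((univ.filter fun i => x i = -1).card : ℤ)
      + ((univ.filter fun i => x i = 0).card : ℤ) := by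
    rw [Finset.natCast_card_filter, Finset.natCast_card_filter, Finset.natCast_card_filter,
      ← Finset.sum_add_distrib, ← Finset.sum_add_distrib]
    have e4 : (n : ℤ) = ∑ _i : Fin n, (1 : ℤ) := by simp
    rw [e4]
    refine Finset.sum_congr rfl fun i _ => ?_
    rcases hv i with h | h | h <;> rw [h] <;> simp
  rw [h2] at e1
  rw [h3] at e2
  refine ⟨?_, ?_, ?_⟩ <;> push_cast at * <;> omega

theorem TRS_swp (n : ℕ) (x : Vec n) (a b : Fin n) (hx : x ∈ VA n 1) : swp a b x ∈ VA n 1 := by
  obtain ⟨h1, h2, h3⟩ := hx
  refine ⟨fun i => h1 _, ?_, ?_⟩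
  · have h4 : ∑ i, swp a b x i = ∑ i, x i := Equiv.sum_comp (Equiv.swap a b) x
    rw [h4, h2]
  · have h4 : dp (swp a b x) (swp a b x) = dp x x :=
      Equiv.sum_comp (Equiv.swap a b) (fun i => x i * x i)
    rw [h4, h3]

theorem TRS_second (n : ℕ) (M : Type) (g : Vec n → M)
    (hs : ∀ x ∈ VA n 1, ∀ a b, g (swp a b x) = g x) :
    ∀ x ∈ VA n 1, ∀ x' ∈ VA n 1, g x = g x' := by
  have key : ∀ m : ℕ, ∀ x ∈ VA n 1, ∀ x' ∈ VA n 1,
      (univ.filter fun j => x j ≠ x' j).card = m → g x = g x' := by
    intro m
    induction m using Nat.strong_induction_on with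
    | _ m ih =>
      intro x hx x' hx' hm
      by_cases h0 : ∀ j, x j = x' j
      · rw [funext h0]
      · push Not at h0
        obtain ⟨a, ha⟩ := h0
        have hcnt : (univ.filter fun i => x i = x' a).card
            = (univ.filter fun i => x' i = x' a).card := by
          obtain ⟨p1, p2, p3⟩ := TRS_val n x hx
          obtain ⟨q1, q2, q3⟩ := TRS_val n x' hx'
          have h4 := abs_le.mp (hx'.1 a)
          have h5 : x' a = 1 ∨ x' a = -1 ∨ x' a = 0 := by omega
          rcases h5 with h | h | h
          · rw [h, p1, q1]
          · rw [h, p2, q2]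
          · rw [h]; omega
        have hb : ∃ b, x b = x' a ∧ x' b ≠ x' a := by
          by_contra hcon
          push Not at hcon
          have hlt : (univ.filter fun i => x i = x' a).card
              < (univ.filter fun i => x' i = x' a).card := by
            apply Finset.card_lt_card
            rw [Finset.ssubset_iff_of_subset]
            · exact ⟨a, by simp, by simp [ha]⟩
            · intro k hk
              rw [Finset.mem_filter] at hk ⊢
              exact ⟨Finset.mem_univ _, hcon k hk.2⟩
          omega
        obtain ⟨b, hb1, hb2⟩ := hb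
        have hy : swp a b x ∈ VA n 1 := TRS_swp n x a b hx
        have hya : swp a b x a = x b := by
          unfold swp
          rw [Equiv.swap_apply_left]
        have hyk : ∀ k, k ≠ a → k ≠ b → swp a b x k = x k := by
          intro k hk hk'
          unfold swp
          rw [Equiv.swap_apply_of_ne_of_ne hk hk']
        have hlt : (univ.filter fun k => swp a b x k ≠ x' k).card < m := by
          rw [← hm]
          apply Finset.card_lt_card
          rw [Finset.ssubset_iff_of_subset]
          · exact ⟨a, by simp [ha], by simp [hya, hb1]⟩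
          · intro k hk
            rw [Finset.mem_filter] at hk ⊢
            refine ⟨Finset.mem_univ _, ?_⟩
            by_cases hka : k = a
            · rw [hka]; exact ha
            · by_cases hkb : k = b
              · rw [hkb, hb1]
                exact fun h => hb2 h.symm
              · rw [hyk k hka hkb] at hk
                exact hk.2
        rw [← hs x hx a b]
        exact ih _ hlt (swp a b x) hy x' hx' rfl
  intro x hx x' hx'
  exact key _ x hx x' hx' rfl

theorem TRS (hCNT : CNT_stmt) : TRS_stmt :=
  ⟨TRS_first hCNT, TRS_second⟩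

end Pool.Agent.SOL
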